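import Pool.Agent.K1H20.RS.TopU

set_option autoImplicit false

/-! # The strong monodromy conjecture, topological version, for resultants

Let `f = R_{m,n} ∈ ℤ[a_0, …, a_m, b_0, …, b_n]`, `n < m`, be the resultant (Sylvester determinant) of
`∑ a_i T ^ i` and `∑ b_j T ^ j` with variable coefficients. Its topological zeta function is
`Z(s) = ∏_{j < n} (j s + j + 2) / ((j + 1) (s + 1)) · 1 / (m s + n + 1)`,
and `b(s) Z(s)` is a polynomial for every functional equation `b(s) f ^ s = P(s) f ^ (s + 1)`: every
pole is a root of `b_f`, of multiplicity at least the order of the pole.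

* The topological zeta function is taken in the sense of the limit formula of Denef and Loeser
  (`IsTopZeta`). For every compact discrete valuation ring `O` (any characteristic) with `q` elements in
  the residue field, with `t = q ^ (-s)`,
  `∫ |f| ^ s = (q - 1) ∏_{j < n} (q ^ (j+2) - t ^ j) / (q ^ (j+1) - t ^ (j+1)) / (q ^ (n+1) - t ^ m)`
  (`zetaO_RS`; `Pool/Agent/K1H20/RS/{DInt, DRes, TopZ}`). Proof: let `U_{m,n}` be the part of the integral
  with `g = ∑ b_j T ^ j` primitive; `Z_{m,n} (1 - q ^ (-n-1) t ^ m) = U_{m,n}` by scaling; the maps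
  `(f, a) ↦ u f + g a`, with `Res (u, g)` a unit, preserve the measure, so that `U_{m,n}` does not depend
  on `m ≥ n - 1`; together with the symmetry `Z_{m,n} = Z_{n,m}` this is a recursion for `U`. The formula
  has the limit `Z(s)` for `q → 1`. The pair `A`, `B` determines the limit (`IsTopZeta.unique`).
* `(s + 1) ^ n` divides `b`, `(s + 1) ^ (n + 1)` divides `b` for `m = n + 1`, and `b` has the root
  `- (n + 1) / m` for `m ≥ n + 2`: see `MP_e7463b_ag/Resultants` (pieces by helper1, helper14, helper63,
  helper68, helper74).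
-/

namespace Pool.Agent.Results.MP_504089_ag.Resultants

open Pool.Agent.K1H20.RS Pool.Agent.K1H20.RS.DV

/-- **The strong monodromy conjecture for topological zeta functions, with orders, for the resultant
`f = R_{m,n}`, `n < m`.** (1) `topNum n / topDen m n` is the topological zeta function of `f`. (2) If
`P / Q` is the topological zeta function of `f` and `b(s) f ^ s = P(s) f ^ (s + 1)`, in particular for
`b = b_f`, then `b · P / Q` is a polynomial. -/
theorem result (m n : ℕ) (h : n < m) :
    IsTopZeta (RS m n) (topNum n) (topDen m n) ∧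
    ∀ P Q : Polynomial ℤ, IsTopZeta (RS m n) P Q → ∀ b : Polynomial ℂ,
      Pool.Agent.H628R4.TP.IsBFunction (MvPolynomial.map (Int.castRingHom ℂ) (RS m n)) b →
      Q.map (Int.castRingHom ℂ) ∣ b * P.map (Int.castRingHom ℂ) := by
  have h1 := isTopZeta_RS m n (by omega)
  refine ⟨h1, fun P Q hPQ b hb => ?_⟩
  obtain ⟨c, hc⟩ := topDen_dvd m n h b hb
  have h2 := congrArg (Polynomial.map (Int.castRingHom ℂ)) (h1.unique hPQ)
  rw [Polynomial.map_mul, Polynomial.map_mul] at h2
  refine ⟨c * (topNum n).map (Int.castRingHom ℂ), ?_⟩
  rw [hc]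
  linear_combination (-c) * h2

end Pool.Agent.Results.MP_504089_ag.Resultants
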