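import Pool.Agent.K1H20.SU.Cls

set_option autoImplicit false

/-! # The strong monodromy conjecture for sums, products and powers in disjoint variables

Let `Z₀` be the topological zeta function of a polynomial `f`, and let `b` satisfy a functional equation
`b(s) f ^ s = P(s) f ^ (s + 1)`, for instance the Bernstein-Sato polynomial. We prove that `b Z₀` is a
polynomial, that is, every pole of `Z₀` is a root of `b` of at least the same multiplicity, for all `f` in a
class which is closed under

* the sums `f(x) + g(z)` in disjoint sets of variables, where `f` is arbitrary and `g` is weighted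
  homogeneous of weight `1` for some rational weights of the variables `z` (for instance the suspensions
  `f(x) + z ^ m`, and `f(x) + g(z)` with any nonconstant homogeneous `g`, or `g = ∑ y_j g_j(z)`),
* the products `f(x) g(z)` in disjoint sets of variables, and the powers `f ^ m`,
* the multiples `c f`, the images of `f` under the automorphisms of the polynomial ring, and dropping
  variables which do not occur.

The class contains, without any hypothesis, the monomials, the polynomials with very general coefficients
at the vertices of the Newton polytope, and the polynomials `∑ y_j f_j(x)` and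
`∑ y_j f_j(x) + g(z)`, where `g` is as before and `(f_j)` is an ideal of `ℂ[x₁, x₂]`, a monomial ideal, an
ideal with very general coefficients, or obtained from such ideals by sums, products and the same
constructions; and moreover every polynomial for which the statement is known for the topological zeta
function and for the twisted ones.

The topological zeta function of `f(x) + g(z)` depends on the twisted zeta functions `Z^(e)` of `f` and of
`g`, `e ≥ 2` (if `f` and `g` have the multiplicities `N` and `N'` along two divisors, then the
contribution of the pair is proportional to `gcd(N, N') ^ 2`); so it is necessary to control the latter as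
well: `b Z^(e)` is `s + 1` times a polynomial. For example, for `F = x ^ a + z ^ b` one has
`1 - (s + 1) Z₀ = s ((1 - 1/a - 1/b + gcd(a, b) ^ 2/(a b)) / (s + 1/a + 1/b) - χ({F ≠ 0}))`.

The functional equations. Let `α` and `β` be roots of `b(s) / (s + 1)` of the multiplicities `m` and `n`
for all functional equations of `f` and of `g`. Then `α + β` is a root of multiplicity `m + n - 1` of
`b(s) / (s + 1)` for all functional equations of `F = f + g` (`two_dvd`; this is Saito's Thom-Sebastiani
theorem for the microlocal `b`-function). The zeta functions of `f + g` are derived in
`Pool/Agent/K1H20/SU/Defs.lean`: with `1 - (s + 1) Z₀ = s (∫ R(t) exp(- s t) dt - χ({f ≠ 0}))` and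
`Z^(e) = ∫ U_e(t) exp(- s t) dt` one has `R_F = R_f R_g + ∑_{e ≥ 2} J(e) U_e U'_e`, where `J(e)` is the number
of the pairs `(χ, θ)` in `(ℤ / e) ^ 2` with `lcm (ord χ, ord θ) = e`.

What the starting files have: poles of the topological zeta functions of `∑ y_j f_j(x) + g(z)`, with
separate variables `y_j` which occur linearly, as roots without multiplicities (`tt_closure`,
`ThomSebastianiGlobal`), and the microlocal argument (`tA`, `exists_psi`), `FM_mul`. What is added: sums of
two arbitrary polynomials (no variable occurs linearly), powers, the twisted zeta functions and the
multiplicities throughout. -/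

namespace Pool.Agent.Results.MP_504089_ag.SumsProductsPowers

open Pool.Agent.W574.SM Pool.Agent.W574.RO Pool.Agent.Y230.TH Pool.Agent.K1H20.TQ
open Pool.Agent.K1H20.SU
open Pool.Agent.H628R4.TP (IsBFunction)

/-- The polynomials started from, with their topological zeta function `Z₀` and their twisted
topological zeta functions `Z e`, `e ≥ 2`: the class `TW`. -/
def Start (σ : Type) (f : MvPolynomial σ ℂ) (Z₀ : RatFunc ℂ) (Z : ℕ → RatFunc ℂ) : Prop :=
  TW ⟨σ, Fin 1, fun _ => f⟩ Z₀ Z

theorem start_sh (σ : Type) (f : MvPolynomial σ ℂ) (Z₀ : RatFunc ℂ) (Z : ℕ → RatFunc ℂ)
    (h : Start σ f Z₀ Z) : Sh σ f Z₀ Z := by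
  obtain ⟨h1, h2, h3⟩ := tw_closure _ Z₀ Z h
  exact ⟨h1, h2, h3⟩

/-- **The strong monodromy conjecture for sums, products and powers.** Let `Clo Start σ f Z₀ Z` be
the least class of polynomials `f` in finitely many variables `σ`, together with their topological zeta
function `Z₀` and their twisted topological zeta functions `Z e`, `e ≥ 2`, which contains `Start` and is
closed under the sums `f(x) + g(z)` in disjoint sets of variables with `g` weighted homogeneous of weight
`1` for some rational weights, the products `f(x) g(z)` in disjoint sets of variables, the powers
`f ^ m`, the multiples `c f`, the automorphisms of the polynomial ring, and dropping and renaming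
variables. If `f` is in the class and `b` satisfies a functional equation `b(s) f ^ s = P(s) f ^ (s + 1)`, for
instance `b = b_f`, then `b Z₀` is a polynomial. -/
theorem result {σ : Type} (f : MvPolynomial σ ℂ) (Z₀ : RatFunc ℂ) (Z : ℕ → RatFunc ℂ)
    (h : Clo Start σ f Z₀ Z) (b : Polynomial ℂ) (hb : IsBFunction f b) :
    ∃ P : Polynomial ℂ, algebraMap (Polynomial ℂ) (RatFunc ℂ) b * Z₀ =
      algebraMap (Polynomial ℂ) (RatFunc ℂ) P :=
  QQ_of_Cq _ Z₀ (clo_sh Start start_sh σ f Z₀ Z h).cq b
    (Pool.Agent.Y230.PS.single_of_isB f b hb)

end Pool.Agent.Results.MP_504089_ag.SumsProductsPowers
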